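import Mathlib
import Pool.Agent.Lib.MP_365485_an.Discrete

set_option autoImplicit false

/-!
# MP_acb846_an: the rational-indexed maximal nest on `ℓ²(ℚ)` is the lattice of one operator
-/

namespace Pool.Agent.Lib.MP_acb846_an.Old.RationalNest

/-- the Hilbert space `ℓ²(ℚ)` -/
abbrev H : Type := lp (fun _ : ℚ => ℂ) 2

/-- `Q_t^+`: the `f` in `ℓ²(ℚ)` with `f(q) = 0` for all `q > t` -/
def Qplus (t : ℝ) : Submodule ℂ H where
  carrier := {f | ∀ q : ℚ, t < q → f q = 0}
  add_mem' := fun {f g} hf hg q hq => by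
    have h1 : f q = 0 := hf q hq
    have h2 : g q = 0 := hg q hq
    simp [h1, h2]
  zero_mem' := fun _ _ => rfl
  smul_mem' := fun c f hf q hq => by
    have h1 : f q = 0 := hf q hq
    simp [h1]

/-- `Q_t^-`: the `f` in `ℓ²(ℚ)` with `f(q) = 0` for all `q ≥ t` -/
def Qminus (t : ℝ) : Submodule ℂ H where
  carrier := {f | ∀ q : ℚ, t ≤ q → f q = 0}
  add_mem' := fun {f g} hf hg q hq => by
    have h1 : f q = 0 := hf q hq
    have h2 : g q = 0 := hg q hq
    simp [h1, h2]
  zero_mem' := fun _ _ => rfl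
  smul_mem' := fun c f hf q hq => by
    have h1 : f q = 0 := hf q hq
    simp [h1]

/-- the nest: all `Q_t^+` and `Q_t^-`, `t ∈ ℝ`, together with `{0}` and `ℓ²(ℚ)` -/
def nest : Set (Submodule ℂ H) := {⊥, ⊤} ∪ Set.range Qplus ∪ Set.range Qminus

/-- `Lat T`: the closed subspaces `M` with `T M ⊆ M` -/
def Lat (T : H →L[ℂ] H) : Set (Submodule ℂ H) := {M | IsClosed (M : Set H) ∧ ∀ x ∈ M, T x ∈ M}

/-- a lower set of rationals is empty, everything, or cut out by a real number -/
theorem lowerSet_rat (A : LowerSet ℚ) : (∀ q : ℚ, q ∉ A) ∨ (∀ q : ℚ, q ∈ A) ∨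
    ∃ t : ℝ, (∀ q : ℚ, q ∉ A ↔ t < (q : ℝ)) ∨ (∀ q : ℚ, q ∉ A ↔ t ≤ (q : ℝ)) := by
  by_cases h0 : ∃ q : ℚ, q ∈ A
  swap
  · left; intro q hq; exact h0 ⟨q, hq⟩
  by_cases h1 : ∃ q : ℚ, q ∉ A
  swap
  · right; left; intro q; by_contra hq; exact h1 ⟨q, hq⟩
  right; right
  obtain ⟨a, ha⟩ := h0
  obtain ⟨b, hb⟩ := h1
  set R : Set ℝ := {x | ∃ q : ℚ, q ∈ A ∧ (q : ℝ) = x} with hR
  have hne : R.Nonempty := ⟨a, a, ha, rfl⟩
  have hub : ∀ c : ℚ, c ∉ A → ∀ x ∈ R, x ≤ c := by
    rintro c hc x ⟨q, hq, rfl⟩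
    by_contra hcon
    rw [not_le] at hcon
    exact hc (A.lower (by exact_mod_cast hcon.le) hq)
  have hbdd : BddAbove R := ⟨b, hub b hb⟩
  set t : ℝ := sSup R with ht
  refine ⟨t, ?_⟩
  by_cases hmem : ∃ q : ℚ, q ∈ A ∧ (q : ℝ) = t
  · left
    obtain ⟨q₀, hq₀, hq₀t⟩ := hmem
    intro q
    constructor
    · intro hq
      rw [← hq₀t]
      by_contra hcon
      rw [not_lt] at hcon
      exact hq (A.lower (by exact_mod_cast hcon) hq₀)
    · intro hq hqA
      exact absurd (le_csSup hbdd ⟨q, hqA, rfl⟩) (not_le.mpr hq)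
  · right
    intro q
    constructor
    · intro hq
      exact csSup_le hne (hub q hq)
    · intro hq hqA
      have h1 : (q : ℝ) ≤ t := le_csSup hbdd ⟨q, hqA, rfl⟩
      exact hmem ⟨q, hqA, le_antisymm h1 hq⟩

/-- There is a bounded linear operator `T` on `ℓ²(ℚ)` with `Lat T` equal to the nest of all `Q_t^+`, `Q_t^-`, `{0}` and
`ℓ²(ℚ)`. -/
theorem result : ∃ T : H →L[ℂ] H, Lat T = nest := by
  obtain ⟨T, hT⟩ := Pool.Agent.Lib.Nest.exists_unicellular_discrete ℚ
  refine ⟨T, ?_⟩
  ext M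
  constructor
  · intro hM
    obtain ⟨A, hA⟩ := (hT M).1 hM
    rcases lowerSet_rat A with h | h | ⟨t, h | h⟩
    · left; left; left
      rw [eq_bot_iff]
      intro f hf
      rw [hA] at hf
      rw [Submodule.mem_bot]
      ext q
      exact hf q (h q)
    · left; left; right
      rw [Set.mem_singleton_iff, eq_top_iff]
      intro f _
      rw [hA]
      intro q hq
      exact absurd (h q) hq
    · left; right
      refine ⟨t, ?_⟩
      ext f
      rw [hA]
      exact ⟨fun hf q hq => hf q ((h q).mp hq), fun hf q hq => hf q ((h q).mpr hq)⟩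
    · right
      refine ⟨t, ?_⟩
      ext f
      rw [hA]
      exact ⟨fun hf q hq => hf q ((h q).mp hq), fun hf q hq => hf q ((h q).mpr hq)⟩
  · rintro (((rfl | rfl) | ⟨t, rfl⟩) | ⟨t, rfl⟩)
    · refine (hT _).2 ⟨⊥, fun f => ?_⟩
      rw [Submodule.mem_bot]
      constructor
      · rintro rfl q _
        rfl
      · intro hf
        ext q
        exact hf q (LowerSet.notMem_bot)
    · refine (hT _).2 ⟨⊤, fun f => ?_⟩
      constructor
      · intro _ q hq
        exact absurd LowerSet.mem_top hq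
      · intro _
        exact Submodule.mem_top
    · refine (hT _).2 ⟨⟨{q : ℚ | (q : ℝ) ≤ t}, ?_⟩, fun f => ?_⟩
      · intro a b hba ha
        have ha' : (a : ℝ) ≤ t := ha
        have hba' : (b : ℝ) ≤ a := by exact_mod_cast hba
        exact hba'.trans ha'
      · constructor
        · intro hf q hq
          refine hf q ?_
          by_contra hcon
          exact hq (not_lt.mp hcon)
        · intro hf q hq
          refine hf q ?_
          intro hcon
          exact absurd hq (not_lt.mpr hcon)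
    · refine (hT _).2 ⟨⟨{q : ℚ | (q : ℝ) < t}, ?_⟩, fun f => ?_⟩
      · intro a b hba ha
        have ha' : (a : ℝ) < t := ha
        have hba' : (b : ℝ) ≤ a := by exact_mod_cast hba
        exact hba'.trans_lt ha'
      · constructor
        · intro hf q hq
          refine hf q ?_
          by_contra hcon
          exact hq (not_le.mp hcon)
        · intro hf q hq
          refine hf q ?_
          intro hcon
          exact absurd hq (not_le.mpr hcon)

end Pool.Agent.Lib.MP_acb846_an.Old.RationalNest
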